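import Pool.Agent.TH520.PR.GLCount

/-!
Profinite rigidity of `SL(n, ℤ)`, `n ≥ 3`: a finitely generated group all of whose finite quotients
are quotients of `SL(n, ℤ)` has at most as many characters of each degree as `SL(n, ℤ)`, over each
algebraically closed field and over each field of positive characteristic; if it has the same finite
quotients as `SL(n, ℤ)` the numbers are equal.
-/

namespace Pool.Agent.Results.MP_a2a22c_al.CharacterCount

open Matrix

universe u

/-- every finite quotient of `G` is a quotient of `H` -/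
def QuotientsLE (G H : Type) [Group G] [Group H] : Prop :=
  ∀ (Q : Type) [Group Q] [Finite Q],
    (∃ f : G →* Q, Function.Surjective f) → ∃ f : H →* Q, Function.Surjective f

/-- the traces of the homomorphisms `G → GL(m, K)` -/
def chars (G : Type) [Group G] (m : ℕ) (K : Type u) [Field K] : Set (G → K) :=
  {χ | ∃ ρ : G →* GL (Fin m) K, ∀ g, χ g = (ρ g).val.trace}

theorem result (n : ℕ) (hn : 3 ≤ n) (Γ : Type) [Group Γ] [Group.FG Γ]
    (hquot : QuotientsLE Γ (SpecialLinearGroup (Fin n) ℤ)) (m : ℕ) (K : Type u) [Field K]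
    (hK : IsAlgClosed K ∨ ∃ c : ℕ, c ≠ 0 ∧ (c : K) = 0) :
    (chars Γ m K).encard ≤ (chars (SpecialLinearGroup (Fin n) ℤ) m K).encard ∧
    (QuotientsLE (SpecialLinearGroup (Fin n) ℤ) Γ →
      (chars Γ m K).encard = (chars (SpecialLinearGroup (Fin n) ℤ) m K).encard) := by
  have hn' : 3 ≤ Fintype.card (Fin n) := by simpa using hn
  have hfg : Group.FG (SpecialLinearGroup (Fin n) ℤ) :=
    Pool.Agent.TH567.PR.fg_SL (by omega)
  have h1 : ∀ (A : Type u) [CommRing A] (c : ℕ), c ≠ 0 → (c : A) = 0 →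
      ∀ ρ : SpecialLinearGroup (Fin n) ℤ →* GL (Fin m) A, Finite ρ.range :=
    fun A _ c hc hcA ρ => Pool.Agent.TH567.PR.finite_range_of_char hn' c hc hcA ρ
  have h2 : ∀ (A : Type u) [CommRing A] (c : ℕ), c ≠ 0 → (c : A) = 0 →
      ∀ ρ : Γ →* GL (Fin m) A, Finite ρ.range :=
    fun A _ c hc hcA ρ => Pool.Agent.TH567.PR.transfer hquot (fun B _ hB ψ =>
      Pool.Agent.TH567.PR.finite_range_of_char hn' c hc (hB c hcA) ψ) ρ
  have h3 : (chars Γ m K).encard ≤ (chars (SpecialLinearGroup (Fin n) ℤ) m K).encard :=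
    Pool.Agent.TH520.GLC.count_le hquot (fun A _ c hc hcA ρ => h2 A c hc hcA ρ) K hK
      (Pool.Agent.TH567.PR.characters_finite h2 K)
  exact ⟨h3, fun hquot' => le_antisymm h3
    (Pool.Agent.TH520.GLC.count_le hquot' (fun A _ c hc hcA ρ => h1 A c hc hcA ρ) K hK
      (Pool.Agent.TH567.PR.characters_finite h1 K))⟩

end Pool.Agent.Results.MP_a2a22c_al.CharacterCount
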