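import Pool.Agent.TH567.PR.Low

/-!
Profinite rigidity of `SL(n, ℤ)`, `n ≥ 3`: a finitely generated group all of whose finite quotients
are finite quotients of `SL(n, ℤ)` has only representations with finite image in degrees less
than `n`, over every commutative ring.
-/

namespace Pool.Agent.Results.MP_a2a22c_al.LowDimension

universe u

theorem result (n : ℕ) (hn : 3 ≤ n) (Γ : Type) [Group Γ] (hfg : Group.FG Γ)
    (hquot : ∀ (Q : Type) [Group Q] [Finite Q],
      (∃ f : Γ →* Q, Function.Surjective f) →
        ∃ f : Matrix.SpecialLinearGroup (Fin n) ℤ →* Q, Function.Surjective f)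
    (A : Type u) [CommRing A] (m : ℕ) (hm : m < n)
    (ρ : Γ →* Matrix.GeneralLinearGroup (Fin m) A) :
    Finite ρ.range :=
  Pool.Agent.TH567.PR.transfer hquot (fun B _ _ ψ =>
    Pool.Agent.TH567.PR.finite_range_of_low (by simpa using hn) (by simpa using hm) ψ) ρ

end Pool.Agent.Results.MP_a2a22c_al.LowDimension
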