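import Pool.Agent.TH567.PR.Pos

/-!
Profinite rigidity of `SL(n, ℤ)`, `n ≥ 3`: a finitely generated group all of whose finite quotients
are finite quotients of `SL(n, ℤ)` has only representations with finite image over commutative
rings of positive characteristic.
-/

namespace Pool.Agent.Results.MP_a2a22c_al.PositiveCharacteristic

universe u

theorem result (n : ℕ) (hn : 3 ≤ n) (Γ : Type) [Group Γ] (hfg : Group.FG Γ)
    (hquot : ∀ (Q : Type) [Group Q] [Finite Q],
      (∃ f : Γ →* Q, Function.Surjective f) →
        ∃ f : Matrix.SpecialLinearGroup (Fin n) ℤ →* Q, Function.Surjective f)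
    (A : Type u) [CommRing A] (c : ℕ) (hc : c ≠ 0) (hcA : (c : A) = 0)
    (m : ℕ) (ρ : Γ →* Matrix.GeneralLinearGroup (Fin m) A) :
    Finite ρ.range :=
  Pool.Agent.TH567.PR.transfer hquot (fun B _ hB ψ =>
    Pool.Agent.TH567.PR.finite_range_of_char (by simpa using hn) c hc (hB c hcA) ψ) ρ

end Pool.Agent.Results.MP_a2a22c_al.PositiveCharacteristic
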